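import Pool.Agent.Q194.MEtern.Main

/-!
# A graph with `n` vertices which is not defeated in `n` attacks (m-eternal domination)

The definitions `Move`, `Survives`, `MEternalDominating` and `gammaM` are in
`Pool/Agent/Q194/MEtern/Defs.lean`.
-/

namespace Pool.Agent.Results.MP_18a4fa_co.NotDefeated

open Q194.MEtern

/-- There are a number `n` (namely `14`), a connected graph `G` with `n` vertices and a
configuration `C` with at most `gammaM G - 1` guards, from which the defender can answer the first
`n` attacks, whatever the attacker does. -/
theorem result : ∃ (n : ℕ) (G : SimpleGraph (Fin n)) (C : Finset (Fin n)), G.Connected ∧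
    C.card < gammaM G ∧ Survives G n C := by
  obtain ⟨G, C, h⟩ := main
  exact ⟨14, G, C, h⟩

end Pool.Agent.Results.MP_18a4fa_co.NotDefeated
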